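import Mathlib
import Pool.Agent.H12.FN.FNoeth
import Pool.Agent.H12.FN.NotDir
import Pool.Agent.H12.FN.Field

set_option autoImplicit false

/-!
# An F-noetherian ring that is not directed F-noetherian

Let `A` be the field of rational functions over `F_p` in variables `x_i` (`i ∈ ℤ`), let `γ` be the
shift automorphism and let `A_n` be the subfield of `p^n`-th powers.  The ring is the square-zero
extension of `A` by the additive subgroup of `End_ℤ(A)` generated by all endomorphisms that
normalize `A_n` for all large `n`.
-/

namespace Pool.Agent.Results.MP_56d54d_al.NotDirected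

/-- Left and right noetherian. -/
def IsNoeth (R : Type*) [Ring R] : Prop := IsNoetherianRing R ∧ IsNoetherianRing Rᵐᵒᵖ

/-- Every finite subset lies in a noetherian subring. -/
def IsFNoetherian (R : Type*) [Ring R] : Prop :=
  ∀ X : Finset R, ∃ S : Subring R, (X : Set R) ⊆ S ∧ IsNoeth S

/-- There is a monotone choice of noetherian subrings containing the finite subsets. -/
def IsDirectedFNoetherian (R : Type*) [Ring R] : Prop :=
  ∃ N : Finset R → Subring R, (∀ X : Finset R, (X : Set R) ⊆ N X ∧ IsNoeth (N X)) ∧
    ∀ X Y : Finset R, X ⊆ Y → N X ≤ N Y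

open Pool.Agent.H12.FN

/-- For every prime `p` there is a ring of characteristic `p` that is F-noetherian but not directed
F-noetherian. -/
theorem result (p : ℕ) (hp : p.Prime) : ∃ (R : Type) (_ : Ring R),
    CharP R p ∧ IsFNoetherian R ∧ ¬ IsDirectedFNoetherian R := by
  have : Fact p.Prime := ⟨hp⟩
  refine ⟨RR (Pn p), inferInstance, ?_, ?_, ?_⟩
  · refine charP_of_injective_ringHom (f := incl (Pn p)) ?_ p
    intro a b hab
    apply lm_injective
    exact congrArg (fun z : RR (Pn p) => z.1.fst) hab
  · exact fun X => fnoeth (Pn p) (Pn_int p) X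
  · rintro ⟨N, hN, hmono⟩
    exact not_directed (Pn p) (Pn_anti p) (Pn_int p) (sh p)
      (fun n x hx => Pn_equiv p n (sh p) x hx) (fun n x hx => Pn_equiv p n (sh p).symm x hx)
      (xx p 0) (fun n => xx p 0 ^ p ^ n) (fun n => (mem_Pn p n _).mpr ⟨xx p 0, rfl⟩)
      (fun n => pow_mem (Subring.subset_closure (Set.mem_singleton _)) _)
      (indep_iter p) N (fun X => (hN X).1) (fun X => (hN X).2.1) hmono

end Pool.Agent.Results.MP_56d54d_al.NotDirected
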